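import Pool.Agent.helper80.SV.Spec

/-!
# Module NUM of project sv: the numerical conditions
-/

set_option autoImplicit false

namespace Pool.Agent.SV

/-- `multichoose m e * e = multichoose m (e - 1) * (m + e - 1)` -/
theorem NUM_mc (m e : ℕ) (hm : 1 ≤ m) :
    Nat.multichoose m (e + 1) * (e + 1) = Nat.multichoose m e * (m + e) := by
  rw [Nat.multichoose_eq, Nat.multichoose_eq]
  have h1 : m + (e + 1) - 1 = m + e := by omega
  have h2 : m + e = (m + e - 1) + 1 := by omega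
  rw [h1]
  have h3 := Nat.add_one_mul_choose_eq (m + e - 1) e
  rw [← h2] at h3
  rw [← h3]
  ring

/-- the first polynomial inequality -/
theorem NUM_p1 (N δ ρ hj hH : ℤ) (hN : 1 ≤ N) (hδ : 2 * δ ≤ (N - 1) * (N + 2)) (hρ : ρ ≤ N)
    (h1 : (N + 1) ^ 3 ≤ hj) (h2 : 2 * hH ≤ N * hj) :
    hH + δ * (N ^ 2 - 1) + N * ρ + N ^ 2 * (N + 1) ≤ N * hj := by
  have h3 : N * (N + 1) ^ 3 ≤ N * hj := mul_le_mul_of_nonneg_left h1 (by omega)
  have h4 : 2 * δ * (N ^ 2 - 1) ≤ (N - 1) * (N + 2) * (N ^ 2 - 1) :=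
    mul_le_mul_of_nonneg_right hδ (by nlinarith)
  have h5 : N * ρ ≤ N * N := mul_le_mul_of_nonneg_left hρ (by omega)
  have h6 : (N - 1) * (N + 2) * (N ^ 2 - 1) + 2 * (N * N) + 2 * (N ^ 2 * (N + 1)) +
      (2 * N ^ 2 + 2 * N - 2) = N * (N + 1) ^ 3 := by ring
  have h7 : 0 ≤ 2 * N ^ 2 + 2 * N - 2 := by nlinarith
  linarith

/-- the second polynomial inequality -/
theorem NUM_p2 (N n δ ρ hj : ℤ) (hN : 1 ≤ N) (hn : 1 ≤ n)
    (hδ : 2 * δ ≤ (N - 1) * (N + 2)) (hρ : ρ ≤ N) (h1 : (n + 1) * (N + 1) ^ 3 ≤ (n - 1) * hj) :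
    2 * ((n + 1) * (N * ρ + δ * (N ^ 2 - 1)) + N * (N + 1) * (n * (n + 1))) ≤
      (n - 1) * hj * (N + n + 1) := by
  have h2 : (n + 1) * (N + 1) ^ 3 * (N + n + 1) ≤ (n - 1) * hj * (N + n + 1) :=
    mul_le_mul_of_nonneg_right h1 (by omega)
  have h4 : 2 * δ * (N ^ 2 - 1) ≤ (N - 1) * (N + 2) * (N ^ 2 - 1) :=
    mul_le_mul_of_nonneg_right hδ (by nlinarith)
  have h5 : N * ρ ≤ N * N := mul_le_mul_of_nonneg_left hρ (by omega)
  have h6 : 2 * (N * ρ + δ * (N ^ 2 - 1)) + 2 * (N * (N + 1) * n) ≤ (N + 1) ^ 3 * (N + n + 1) := by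
    have h7 : (N + 1) ^ 3 * (N + n + 1) = (N - 1) * (N + 2) * (N ^ 2 - 1) + 2 * (N * N) +
        2 * (N * (N + 1) * n) + (3 * N ^ 3 + 7 * N ^ 2 + 5 * N - 1) +
        n * (N + 1) * (N ^ 2 + 1) := by ring
    have h8 : 0 ≤ 3 * N ^ 3 + 7 * N ^ 2 + 5 * N - 1 := by nlinarith [pow_pos (show (0:ℤ) < N by omega) 3, pow_pos (show (0:ℤ) < N by omega) 2]
    have h9 : 0 ≤ n * (N + 1) * (N ^ 2 + 1) := by positivity
    linarith
  have h10 := mul_le_mul_of_nonneg_left h6 (by omega : (0 : ℤ) ≤ n + 1)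
  have h11 : (n + 1) * (2 * (N * ρ + δ * (N ^ 2 - 1)) + 2 * (N * (N + 1) * n)) =
      2 * ((n + 1) * (N * ρ + δ * (N ^ 2 - 1)) + N * (N + 1) * (n * (n + 1))) := by ring
  have h12 : (n + 1) * ((N + 1) ^ 3 * (N + n + 1)) = (n + 1) * (N + 1) ^ 3 * (N + n + 1) := by ring
  linarith

theorem NUM_e2 (m n M N hj hH h' : ℤ) (e1 : N = m + n) (e2 : hj = M * m) (e3 : 2 * hH = hj * (m + 1))
    (e4 : h' = hj + M) : 2 * ((n + 1) * (N * h' - hH)) - 2 * (N * (N + 1) * M) =
      (n - 1) * hj * (N + n + 1) := by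
  have h1 : 2 * ((n + 1) * (N * h' - hH)) - 2 * (N * (N + 1) * M) =
      (n + 1) * (2 * N * h' - 2 * hH) - 2 * (N * (N + 1) * M) := by ring
  rw [h1, e3, e4, e2, e1]
  ring

theorem NUM : NUM_stmt := by
  intro m n e M hH h' h'' h hm hn he hM ehH eh' eh'' eh hcond r hr
  obtain ⟨N, hN⟩ : ∃ N, N = m + n := ⟨_, rfl⟩
  rw [← hN] at hcond hr ⊢
  obtain ⟨hj, ehj⟩ : ∃ hj, hj = M * Nat.multichoose m (e - 1) := ⟨_, rfl⟩
  rw [← ehj] at hcond
  have hN2 : 2 ≤ N := by omega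
  have F1 : h' = hj + h'' := by
    rw [eh', ehj, eh'', ← Nat.mul_add]
    obtain ⟨k, rfl⟩ : ∃ k, e = k + 2 := ⟨e - 2, by omega⟩
    have := Nat.multichoose_succ_succ m k
    show M * Nat.multichoose (m + 1) (k + 1) = M * (Nat.multichoose m (k + 1) +
      Nat.multichoose (m + 1) k)
    rw [this]
  have F2 : hH * e = hj * (m + e - 1) := by
    rw [ehH, ehj]
    obtain ⟨k, rfl⟩ : ∃ k, e = k + 1 := ⟨e - 1, by omega⟩
    have h1 := NUM_mc m k hm
    have h2 : m + (k + 1) - 1 = m + k := by omega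
    rw [h2, Nat.add_sub_cancel, mul_assoc, h1, mul_assoc]
  have F3 : (N + 1) ^ 3 ≤ hj := by
    rcases hcond with ⟨_, h1⟩ | ⟨_, h1⟩
    · exact h1
    · by_contra hcon
      push Not at hcon
      have h2 : (n - 1) * hj ≤ (n - 1) * (N + 1) ^ 3 := Nat.mul_le_mul_left _ hcon.le
      have h3 : (n - 1) * (N + 1) ^ 3 < (n + 1) * (N + 1) ^ 3 :=
        Nat.mul_lt_mul_of_pos_right (by omega) (by positivity)
      omega
  have F4 : hj ≤ hH := by
    have h1 : hj * e ≤ hH * e := by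
      rw [F2]
      exact Nat.mul_le_mul_left _ (by omega)
    exact Nat.le_of_mul_le_mul_right h1 (by omega)
  have F5 : 2 * hH ≤ N * hj := by
    have h0 : 2 * (m + e - 1) ≤ N * e := by
      obtain ⟨k, rfl⟩ : ∃ k, e = k + 2 := ⟨e - 2, by omega⟩
      obtain ⟨l, rfl⟩ : ∃ l, m = l + 1 := ⟨m - 1, by omega⟩
      have h1 : (l + 2) * (k + 2) ≤ N * (k + 2) := Nat.mul_le_mul_right _ (by omega)
      have h2 : (l + 2) * (k + 2) = l * k + 2 * l + 2 * k + 4 := by ring
      generalize l * k = A at *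
      omega
    have h1 : 2 * hH * e ≤ N * hj * e := by
      calc 2 * hH * e = 2 * (hH * e) := by ring
        _ = 2 * (hj * (m + e - 1)) := by rw [F2]
        _ = hj * (2 * (m + e - 1)) := by ring
        _ ≤ hj * (N * e) := Nat.mul_le_mul_left _ h0
        _ = N * hj * e := by ring
    exact Nat.le_of_mul_le_mul_right h1 (by omega)
  -- the numbers `B`, `u`, `δ`
  obtain ⟨B, eB⟩ : ∃ B, B = N * (N - 1) / 2 := ⟨_, rfl⟩
  have hB : 2 * B = N * (N - 1) := by
    rw [eB]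
    exact Nat.mul_div_cancel' (even_iff_two_dvd.1 (Nat.even_mul_pred_self N))
  obtain ⟨B', eB'⟩ : ∃ B', B' = (N + 1) * N / 2 := ⟨_, rfl⟩
  have hB' : 2 * B' ≤ (N + 1) * N := by
    rw [eB']
    exact Nat.mul_div_le _ _
  rw [← eB, ← eB']
  have hNN : (N + 1) ^ 3 = N ^ 3 + 3 * N ^ 2 + 3 * N + 1 := by ring
  have hBN : 2 * B + N = N ^ 2 := by
    obtain ⟨k, rfl⟩ : ∃ k, N = k + 1 := ⟨N - 1, by omega⟩
    rw [hB, Nat.add_sub_cancel]
    ring
  have hBH : B ≤ hH := by omega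
  obtain ⟨s, es⟩ : ∃ s, s = (hH - B) % N := ⟨_, rfl⟩
  obtain ⟨u, eu⟩ : ∃ u, u = (hH - B) / N := ⟨_, rfl⟩
  have hs : s < N := by
    rw [es]
    exact Nat.mod_lt _ (by omega)
  have hus : u * N + (B + s) = hH := by
    have h1 := Nat.div_add_mod (hH - B) N
    rw [← es, ← eu] at h1
    have h2 : N * u = u * N := Nat.mul_comm _ _
    omega
  obtain ⟨δ, eδ⟩ : ∃ δ, δ = B + s := ⟨_, rfl⟩
  rw [← eδ] at hus
  have hδ : (2 : ℤ) * δ ≤ ((N : ℤ) - 1) * (N + 2) := by
    have h1 : 2 * δ + 2 ≤ N ^ 2 + N := by omega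
    have h2 : (2 : ℤ) * δ + 2 ≤ N ^ 2 + N := by exact_mod_cast h1
    have h3 : ((N : ℤ) - 1) * (N + 2) = N ^ 2 + N - 2 := by ring
    omega
  have hu : N ^ 2 ≤ u := by
    have h1 : N ^ 3 ≤ u * N := by
      have h2 : 2 * δ + 2 ≤ N ^ 2 + N := by omega
      omega
    have h2 : N ^ 2 * N ≤ u * N := by
      calc N ^ 2 * N = N ^ 3 := by ring
        _ ≤ u * N := h1
    exact Nat.le_of_mul_le_mul_right h2 (by omega)
  -- the remainder
  obtain ⟨ρ, eρ⟩ : ∃ ρ : ℤ, ρ = (h : ℤ) - r * (N + 1) := ⟨_, rfl⟩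
  have hρ : -(N : ℤ) ≤ ρ ∧ ρ ≤ N := by
    rcases hr with hr | hr
    · have h1 := Nat.div_add_mod h (N + 1)
      have h2 := Nat.mod_lt h (show 0 < N + 1 by omega)
      rw [← hr] at h1
      have h3 : (h : ℤ) = (N + 1) * r + (h % (N + 1) : ℕ) := by exact_mod_cast h1.symm
      have h4 : (r : ℤ) * (N + 1) = (N + 1) * r := by ring
      omega
    · have h1 := Nat.div_add_mod (h + N) (N + 1)
      have h2 := Nat.mod_lt (h + N) (show 0 < N + 1 by omega)
      rw [← hr] at h1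
      have h3 : (h : ℤ) + N = (N + 1) * r + ((h + N) % (N + 1) : ℕ) := by exact_mod_cast h1.symm
      have h4 : (r : ℤ) * (N + 1) = (N + 1) * r := by ring
      omega
  -- integers
  have zH : (hH : ℤ) = u * N + δ := by exact_mod_cast hus.symm
  have zh : (h : ℤ) = hH + h' := by exact_mod_cast eh
  have zF1 : (h' : ℤ) = hj + h'' := by exact_mod_cast F1
  have hN1 : (1 : ℤ) ≤ N := by omega
  have key : ((r : ℤ) - u - δ) * (N + 1) = h' - ρ - u - δ * N := by
    rw [eρ, zh, zH]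
    ring
  have p1 := NUM_p1 N δ ρ hj hH hN1 hδ hρ.2 (by exact_mod_cast F3) (by exact_mod_cast F5)
  have K : ρ + u + δ * N + N * (N + 1) ≤ hj := by
    have h1 : (N : ℤ) * (ρ + u + δ * N + N * (N + 1)) ≤ N * hj := by
      have h2 : (N : ℤ) * (ρ + u + δ * N + N * (N + 1)) =
          hH + δ * (N ^ 2 - 1) + N * ρ + N ^ 2 * (N + 1) := by
        rw [zH]
        ring
      rw [h2]
      exact p1
    exact le_of_mul_le_mul_left h1 (by omega)
  have hr'N : (N : ℤ) ≤ (r : ℤ) - u - δ := by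
    have h1 : (N : ℤ) * (N + 1) ≤ ((r : ℤ) - u - δ) * (N + 1) := by
      rw [key, zF1]
      have : (0 : ℤ) ≤ h'' := Int.natCast_nonneg _
      linarith
    exact le_of_mul_le_mul_right h1 (by omega)
  obtain ⟨r', er'⟩ : ∃ r', r = u + δ + r' := ⟨r - u - δ, by omega⟩
  have zr' : (r : ℤ) - u - δ = r' := by
    rw [er']
    push_cast
    ring
  rw [zr'] at key hr'N
  refine ⟨u, δ, r', er', hus, by omega, ?_, ?_, ?_, ?_⟩
  · intro hr1
    have h1 : ((r' - 1 : ℕ) : ℤ) = r' - 1 := by omega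
    have h2 : (((r' - 1) * (N + 1) + B' : ℕ) : ℤ) < h' := by
      push_cast [h1]
      have h3 : ((r' : ℤ) - 1) * (N + 1) = r' * (N + 1) - (N + 1) := by ring
      rw [h3, key]
      have h4 : (0 : ℤ) ≤ δ * N := by positivity
      have h5 : (N : ℤ) ^ 2 ≤ u := by exact_mod_cast hu
      have h6 : (2 : ℤ) * B' ≤ (N + 1) * N := by exact_mod_cast hB'
      have h7 : ((N : ℤ) + 1) * N = N ^ 2 + N := by ring
      have h8 : (N : ℤ) ≤ N ^ 2 := by nlinarith
      have h9 := hρ.1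
      linarith
    exact_mod_cast h2
  · intro D'' hD3 hD2
    rcases Nat.lt_or_ge 2 e with he3 | he2
    · rw [hD3 he3]
      have h1 : (h'' : ℤ) ≤ (N + 1) * (r' - N) := by
        have h2 : ((N : ℤ) + 1) * (r' - N) = r' * (N + 1) - N * (N + 1) := by ring
        rw [h2, key, zF1]
        linarith
      have hle : N ≤ r' := by exact_mod_cast hr'N
      have h3 : h'' ≤ (N + 1) * (r' - N) := by
        have h4 : ((r' - N : ℕ) : ℤ) = r' - N := by omega
        have h5 : (h'' : ℤ) ≤ ((N + 1) * (r' - N) : ℕ) := by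
          push_cast
          rw [h4]
          exact h1
        exact_mod_cast h5
      have h6 := Nat.div_le_of_le_mul h3
      omega
    · have he2' : e = 2 := by omega
      rw [hD2 he2']
      rcases hcond with ⟨h3, _⟩ | ⟨_, hc⟩
      · omega
      subst he2'
      have f1 : h'' = M := by
        rw [eh'']
        simp
      have f2 : hj = M * m := by
        rw [ehj]
        simp
      have f3 : 2 * hH = hj * (m + 1) := by
        rw [mul_comm, F2]
        rfl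
      have z1 : (N : ℤ) = m + n := by exact_mod_cast hN
      have z2 : (hj : ℤ) = M * m := by exact_mod_cast f2
      have z3 : (2 : ℤ) * hH = hj * (m + 1) := by exact_mod_cast f3
      have z4 : (h' : ℤ) = hj + M := by rw [zF1, f1]
      have hn1 : ((n - 1 : ℕ) : ℤ) = n - 1 := by omega
      have hc' : ((n : ℤ) + 1) * ((N : ℤ) + 1) ^ 3 ≤ ((n : ℤ) - 1) * hj := by
        rw [← hn1]
        exact_mod_cast hc
      have p2 := NUM_p2 N n δ ρ hj hN1 (by omega) hδ hρ.2 hc'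
      rw [← NUM_e2 m n M N hj hH h' z1 z2 z3 z4] at p2
      have h1 : (N : ℤ) * (N + 1) * (M + n * (n + 1)) ≤ N * (N + 1) * ((n + 1) * r') := by
        have h2 : (N : ℤ) * (N + 1) * ((n + 1) * r') =
            (n + 1) * (N * (r' * (N + 1))) := by ring
        have h3 : (n + 1) * ((N : ℤ) * (h' - ρ - u - δ * N)) =
            (n + 1) * (N * h' - hH) - (n + 1) * (N * ρ + δ * (N ^ 2 - 1)) := by
          rw [zH]
          ring
        rw [h2, key, h3]
        linarith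
      have h4 : (M : ℤ) + n * (n + 1) ≤ (n + 1) * r' :=
        le_of_mul_le_mul_left h1 (by positivity)
      have h5 : M + n * (n + 1) ≤ (n + 1) * r' := by exact_mod_cast h4
      have h6 : n ≤ r' := by
        by_contra hcon
        push Not at hcon
        have h7 : (n + 1) * r' ≤ (n + 1) * n := Nat.mul_le_mul_left _ hcon.le
        have h8 : (n + 1) * n = n * (n + 1) := Nat.mul_comm _ _
        omega
      have h7 : h'' ≤ (n + 1) * (r' - n) := by
        rw [f1, Nat.mul_sub]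
        have h8 : (n + 1) * n = n * (n + 1) := Nat.mul_comm _ _
        omega
      have h9 := Nat.div_le_of_le_mul h7
      omega
  · have h1 : ((r' * (N + 1) + δ * N + (N - 1) * (N + 1) : ℕ) : ℤ) < ((h' + N : ℕ) : ℤ) := by
      have h2 : ((N - 1 : ℕ) : ℤ) = N - 1 := by omega
      push_cast
      rw [h2, key]
      have h5 : (N : ℤ) ^ 2 ≤ u := by exact_mod_cast hu
      have h9 := hρ.1
      have h10 : ((N : ℤ) - 1) * (N + 1) = N ^ 2 - 1 := by ring
      linarith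
    exact_mod_cast h1
  · have h1 : (h' : ℤ) - (r' * (N + 1) : ℕ) - (δ * N : ℕ) - u = h - (r * (N + 1) : ℕ) := by
      push_cast
      have h2 : (h : ℤ) - r * (N + 1) = ρ := eρ.symm
      rw [h2, key]
      ring
    generalize r' * (N + 1) = P at *
    generalize δ * N = Q at *
    generalize r * (N + 1) = R at *
    omega

end Pool.Agent.SV
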